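import Mathlib

/-! The real closure equals the strong 2-closure, except for the trivial group on two points. -/

namespace Pool.Agent.Results.MP_5a426c_al.RealClosure

/-- The linear extension of `σ` to the permutation module (the basis vector of `a` goes to the
basis vector of `σ a`). -/
def permAct {Ω : Type} (σ : Equiv.Perm Ω) : (Ω → ℝ) →ₗ[ℝ] (Ω → ℝ) :=
  LinearMap.funLeft ℝ ℝ σ.symm

/-- The real closure of `G`. -/
def realClosure {Ω : Type} (G : Subgroup (Equiv.Perm Ω)) : Set (Equiv.Perm Ω) :=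
  {σ | ∀ W : Submodule ℝ (Ω → ℝ), (∀ g ∈ G, W.map (permAct g) ≤ W) → W.map (permAct σ) = W}

/-- The orbit of a subset `s` under `G`. -/
def setOrbit {Ω : Type} (G : Subgroup (Equiv.Perm Ω)) (s : Set Ω) : Set (Set Ω) :=
  {t | ∃ g ∈ G, t = g '' s}

/-- The strong 2-closure of `G`. -/
def strongTwoClosure {Ω : Type} (G : Subgroup (Equiv.Perm Ω)) : Set (Equiv.Perm Ω) :=
  {σ | ∀ s : Set Ω, s.ncard = 2 → (fun t => σ '' t) '' setOrbit G s = setOrbit G s}

/-- `(x, y)` lies in the symmetrised orbital of `(a, b)`. -/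
def SymOrb {Ω : Type} (G : Subgroup (Equiv.Perm Ω)) (a b x y : Ω) : Prop :=
  ∃ g ∈ G, (x = g a ∧ y = g b) ∨ (x = g b ∧ y = g a)

lemma permAct_apply {Ω : Type} (σ : Equiv.Perm Ω) (f : Ω → ℝ) (x : Ω) :
    permAct σ f x = f (σ.symm x) := rfl

lemma symOrb_smul {Ω : Type} {G : Subgroup (Equiv.Perm Ω)} {a b x y : Ω} {g : Equiv.Perm Ω}
    (hg : g ∈ G) (h : SymOrb G a b x y) : SymOrb G a b (g x) (g y) := by
  obtain ⟨k, hk, h⟩ := h
  refine ⟨g * k, G.mul_mem hg hk, ?_⟩
  rcases h with ⟨rfl, rfl⟩ | ⟨rfl, rfl⟩ <;> simp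

lemma symOrb_iff {Ω : Type} {G : Subgroup (Equiv.Perm Ω)} {a b x y : Ω} {g : Equiv.Perm Ω}
    (hg : g ∈ G) : SymOrb G a b (g x) (g y) ↔ SymOrb G a b x y :=
  ⟨fun h => by simpa using symOrb_smul (G.inv_mem hg) h, symOrb_smul hg⟩

lemma symOrb_of_real {Ω : Type} [Fintype Ω] {G : Subgroup (Equiv.Perm Ω)} {σ : Equiv.Perm Ω}
    (h : σ ∈ realClosure G) (a b : Ω) : SymOrb G a b (σ a) (σ b) := by
  classical
  let S : Matrix Ω Ω ℝ := fun x y => if SymOrb G a b x y then 1 else 0
  have hS : S.IsHermitian := by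
    ext x y
    have : SymOrb G a b y x ↔ SymOrb G a b x y := by
      constructor <;> rintro ⟨g, hg, h⟩ <;> exact ⟨g, hg, by tauto⟩
    simp [S, this]
  have hcomm : ∀ g ∈ G, ∀ v, S.mulVec (permAct g v) = permAct g (S.mulVec v) := by
    intro g hg v
    funext x
    simp only [Matrix.mulVec, dotProduct, permAct_apply]
    rw [← Equiv.sum_comp g]
    refine Finset.sum_congr rfl (fun y _ => ?_)
    have := symOrb_iff (a := a) (b := b) (x := g.symm x) (y := y) hg
    simp only [Equiv.apply_symm_apply] at this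
    simp [S, this]
  let B := hS.eigenvectorBasis.toBasis.map (WithLp.linearEquiv 2 ℝ (Ω → ℝ))
  have hB : ∀ j, S.mulVec (B j) = hS.eigenvalues j • B j := fun j => hS.mulVec_eigenvectorBasis j
  have key : Matrix.toLin' S ∘ₗ permAct σ = permAct σ ∘ₗ Matrix.toLin' S := by
    apply B.ext
    intro j
    let W : Submodule ℝ (Ω → ℝ) := Module.End.eigenspace (Matrix.toLin' S) (hS.eigenvalues j)
    have hW : ∀ v, v ∈ W ↔ S.mulVec v = hS.eigenvalues j • v := fun v =>
      Module.End.mem_eigenspace_iff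
    have h1 := h W (by
      rintro g hg _ ⟨v, hv, rfl⟩
      rw [hW, hcomm g hg, (hW v).1 hv, map_smul])
    have h2 : permAct σ (B j) ∈ W := h1 ▸ Submodule.mem_map_of_mem ((hW _).2 (hB j))
    simp only [LinearMap.comp_apply, Matrix.toLin'_apply]
    rw [(hW _).1 h2, hB, map_smul]
  have := congrFun (LinearMap.congr_fun key (Pi.single b 1)) (σ a)
  simp only [LinearMap.comp_apply, Matrix.toLin'_apply, Matrix.mulVec, dotProduct,
    permAct_apply, Equiv.symm_apply_apply] at this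
  rw [← Equiv.sum_comp σ] at this
  have h1 : SymOrb G a b a b := ⟨1, G.one_mem, Or.inl ⟨rfl, rfl⟩⟩
  simp [Pi.single_apply, S, h1] at this
  exact this

lemma real_of_symOrb {Ω : Type} [Fintype Ω] {G : Subgroup (Equiv.Perm Ω)} {σ : Equiv.Perm Ω}
    (h : ∀ a b, SymOrb G a b (σ a) (σ b)) : σ ∈ realClosure G := by
  classical
  intro W hW
  apply Submodule.eq_of_le_of_finrank_eq _
    (LinearEquiv.finrank_map_eq (LinearEquiv.funCongrLeft ℝ ℝ σ.symm) W)
  rintro _ ⟨w, hw, rfl⟩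
  by_contra hn
  obtain ⟨φ, hφ, hφW⟩ := Submodule.exists_dual_map_eq_bot_of_notMem hn inferInstance
  let u : Ω → ℝ := fun x => φ (Pi.single x 1)
  have hu : ∀ f : Ω → ℝ, φ f = ∑ x, f x * u x := by
    intro f
    conv_lhs => rw [pi_eq_sum_univ f]
    simp only [map_sum, map_smul, smul_eq_mul, u]
    refine Finset.sum_congr rfl (fun x _ => ?_)
    congr 2
    funext y
    simp [Pi.single_apply, eq_comm]
  have h0 : ∀ g : G, ∑ x, w (g.1.symm x) * u x = 0 := by
    intro g
    have : φ (permAct g.1 w) ∈ W.map φ :=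
      Submodule.mem_map_of_mem (hW g.1 g.2 (Submodule.mem_map_of_mem hw))
    rw [hφW, Submodule.mem_bot, hu] at this
    exact this
  let M : Ω → Ω → ℝ := fun x y => ∑ g : G, w (g.1.symm x) * w (g.1.symm y)
  have hMg : ∀ k ∈ G, ∀ x y, M (k x) (k y) = M x y := by
    intro k hk x y
    simp only [M]
    rw [← Equiv.sum_comp (Equiv.mulLeft (⟨k, hk⟩ : G))]
    refine Finset.sum_congr rfl (fun g _ => ?_)
    have e : ∀ z, (k * g.1).symm (k z) = g.1.symm z := fun z => by
      rw [Equiv.symm_apply_eq]; simp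
    exact congrArg₂ (fun s t => w s * w t) (e x) (e y)
  have hM : ∀ x y, M (σ x) (σ y) = M x y := by
    intro x y
    obtain ⟨k, hk, ⟨e1, e2⟩ | ⟨e1, e2⟩⟩ := h x y
    · rw [e1, e2, hMg k hk]
    · rw [e1, e2, hMg k hk]
      simp only [M, mul_comm]
  have hq : ∀ v : Ω → ℝ, ∑ g : G, (∑ x, w (g.1.symm x) * v x) ^ 2 =
      ∑ x, ∑ y, M x y * (v x * v y) := by
    intro v
    simp only [M, Finset.sum_mul, pow_two, Finset.mul_sum]
    rw [Finset.sum_comm]
    refine Finset.sum_congr rfl (fun x _ => ?_)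
    rw [Finset.sum_comm]
    refine Finset.sum_congr rfl (fun y _ => Finset.sum_congr rfl (fun g _ => by ring))
  have h1 : ∑ g : G, (∑ x, w (g.1.symm x) * u (σ x)) ^ 2 = 0 := by
    rw [hq (fun x => u (σ x))]
    have := hq u
    simp only [h0] at this
    rw [← Equiv.sum_comp σ] at this
    simp only [← Equiv.sum_comp σ (fun y => M (σ _) y * (u (σ _) * u y)), hM] at this
    rw [← this]; simp
  have h2 := (Finset.sum_eq_zero_iff_of_nonneg (fun _ _ => sq_nonneg _)).1 h1 1 (Finset.mem_univ _)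
  apply hφ
  rw [hu, ← Equiv.sum_comp σ]
  have h3 : ∑ x, w x * u (σ x) = 0 := by simpa [← Equiv.Perm.inv_def] using h2
  simpa using h3

lemma strong_of_symOrb {Ω : Type} [Fintype Ω] {G : Subgroup (Equiv.Perm Ω)} {σ : Equiv.Perm Ω}
    (h : ∀ a b, a ≠ b → SymOrb G a b (σ a) (σ b)) : σ ∈ strongTwoClosure G := by
  intro s hs
  obtain ⟨a, b, hab, rfl⟩ := Set.ncard_eq_two.1 hs
  apply Set.eq_of_subset_of_ncard_le
  · rintro _ ⟨_, ⟨g, hg, rfl⟩, rfl⟩
    obtain ⟨k, hk, h1⟩ := h (g a) (g b) (g.injective.ne hab)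
    refine ⟨k * g, G.mul_mem hk hg, ?_⟩
    simp only [Set.image_pair, Equiv.Perm.coe_mul, Function.comp]
    rcases h1 with ⟨e1, e2⟩ | ⟨e1, e2⟩
    · rw [e1, e2]
    · rw [e1, e2, Set.pair_comm]
  · rw [Set.ncard_image_of_injective _ (Set.image_injective.2 σ.injective)]
  · exact Set.toFinite _

lemma symOrb_of_strong {Ω : Type} {G : Subgroup (Equiv.Perm Ω)} {σ : Equiv.Perm Ω}
    (h : σ ∈ strongTwoClosure G) (a b : Ω) (hab : a ≠ b) : SymOrb G a b (σ a) (σ b) := by
  have h1 := h {a, b} (Set.ncard_pair hab)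
  have h2 : σ '' {a, b} ∈ setOrbit G {a, b} := h1 ▸ ⟨{a, b}, ⟨1, G.one_mem, by simp⟩, rfl⟩
  obtain ⟨g, hg, e⟩ := h2
  simp only [Set.image_pair] at e
  exact ⟨g, hg, Set.pair_eq_pair_iff.1 e⟩

theorem result (Ω : Type) [Fintype Ω] (G : Subgroup (Equiv.Perm Ω)) :
    realClosure G = strongTwoClosure G ↔ ¬ (Fintype.card Ω = 2 ∧ G = ⊥) := by
  classical
  constructor
  · rintro h ⟨h2, rfl⟩
    obtain ⟨a, b, hab, hu⟩ := Finset.card_eq_two.1 (Finset.card_univ.trans h2)
    have hx : ∀ x, x = a ∨ x = b := fun x => by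
      have := Finset.mem_univ x
      rw [hu] at this
      simpa using this
    have h3 : Equiv.swap a b ∈ strongTwoClosure (⊥ : Subgroup (Equiv.Perm Ω)) := by
      apply strong_of_symOrb
      intro x y hxy
      refine ⟨1, Subgroup.one_mem _, Or.inr ?_⟩
      rcases hx x with rfl | rfl <;> rcases hx y with rfl | rfl <;> simp_all
    rw [← h] at h3
    obtain ⟨g, hg, e⟩ := symOrb_of_real h3 a a
    rw [Subgroup.mem_bot.1 hg] at e
    simp [hab.symm] at e
  · intro hne
    ext σ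
    refine ⟨fun h => strong_of_symOrb (fun a b _ => symOrb_of_real h a b), fun h => ?_⟩
    apply real_of_symOrb
    intro a b
    by_cases hab : a = b
    swap
    · exact symOrb_of_strong h a b hab
    subst hab
    by_contra hn
    have hn' : ∀ g ∈ G, σ a ≠ g a := fun g hg e => hn ⟨g, hg, Or.inl ⟨e, e⟩⟩
    have h1 : ∀ b, b ≠ a → ∃ g ∈ G, σ a = g b ∧ σ b = g a := by
      intro b hb
      obtain ⟨g, hg, e | e⟩ := symOrb_of_strong h a b hb.symm
      · exact (hn' g hg e.1).elim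
      · exact ⟨g, hg, e⟩
    have h2 : ∀ g ∈ G, g a = a := by
      intro g hg
      by_contra hga
      obtain ⟨k, hk, e, -⟩ := h1 _ hga
      exact hn' (k * g) (G.mul_mem hk hg) e
    have h3 : ∀ b, b ≠ a → b = σ.symm a := by
      intro b hb
      obtain ⟨k, hk, -, e⟩ := h1 b hb
      rw [h2 k hk] at e
      rw [← e]; simp
    have h4 : σ a ≠ a := hn' 1 G.one_mem
    have h5 : σ.symm a ≠ a := h3 _ h4 ▸ h4
    apply hne
    constructor
    · rw [← Finset.card_univ, Finset.card_eq_two]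
      refine ⟨a, σ.symm a, h5.symm, ?_⟩
      ext x
      by_cases hx : x = a
      · simp [hx]
      · simp [h3 x hx]
    · rw [eq_bot_iff]
      intro g hg
      rw [Subgroup.mem_bot]
      ext x
      by_cases hx : x = a
      · simp [hx, h2 g hg]
      · have : g x ≠ a := fun e => hx (g.injective (e.trans (h2 g hg).symm))
        simp [h3 _ this, ← h3 x hx]

end Pool.Agent.Results.MP_5a426c_al.RealClosure
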